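import Pool.Agent.MT100A.Stmts
import Pool.Agent.Helper19_MT100G.Hpl
import Pool.Agent.Helper43_MT100G.Bas
import Pool.Agent.Helper47_MT100G.Uni
import Pool.Agent.Helper67_MTG.Ode
import Pool.Agent.Helper11_MTG.Per

/-! MT100-A, module HMN: the monodromy group is the monodromy group of a half plane
(retraction of chains). -/

set_option autoImplicit false

namespace Pool.Agent.MT100A.H81

open Matrix Polynomial Pool.Agent.MT100 Pool.Agent.MT100G Pool.Agent.Helper78_MT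
open scoped Topology

variable {d : Type} [Fintype d] [DecidableEq d] {q : ℤ[X]} {B : Matrix d d ℤ[X]}

/-- the matrix of the system -/
noncomputable def Am (q : ℤ[X]) (B : Matrix d d ℤ[X]) (w : ℂ) : Matrix d d ℂ :=
  -((w * zC q w⁻¹)⁻¹) • B.map (fun p => zC p w⁻¹)

omit [DecidableEq d] in
theorem ode_iff (Y : ℂ → Matrix d d ℂ) (w : ℂ) (i j : d) :
    HasDerivAt (fun x => Y x i j)
      (-((w * zC q w⁻¹)⁻¹ * (B.map (fun p => zC p w⁻¹) * Y w) i j)) w ↔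
    HasDerivAt (fun x => Y x i j) ((Am q B w * Y w) i j) w := by
  unfold Am
  rw [Matrix.smul_mul, Matrix.smul_apply, smul_eq_mul, neg_mul]

/-- two solutions on a convex open set -/
theorem two {U : Set ℂ} (hU : IsOpen U) (hc : Convex ℝ U) {Y Y' : ℂ → Matrix d d ℂ}
    {c c' : ℂ} {ρ ρ' : ℝ} (h : SolOn q B c ρ Y) (h' : SolOn q B c' ρ' Y')
    (hs : U ⊆ Metric.ball c ρ) (hs' : U ⊆ Metric.ball c' ρ') :
    ∃ g : Matrix d d ℂ, ∀ w ∈ U, Y' w = Y w * g :=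
  MT100G.H47.uni d (Am q B) U hU hc Y Y'
    (fun w hw => ⟨h.det w (hs hw), fun i j => (ode_iff Y w i j).1 (h.ode w (hs hw) i j)⟩)
    (fun w hw i j => (ode_iff Y' w i j).1 (h'.ode w (hs' hw) i j))

theorem uniq {U : Set ℂ} (hU : IsOpen U) (hc : Convex ℝ U) {Y Y' : ℂ → Matrix d d ℂ}
    {c c' : ℂ} {ρ ρ' : ℝ} (h : SolOn q B c ρ Y) (h' : SolOn q B c' ρ' Y')
    (hs : U ⊆ Metric.ball c ρ) (hs' : U ⊆ Metric.ball c' ρ') {p : ℂ} (hp : p ∈ U)
    (hpe : Y p = Y' p) : ∀ w ∈ U, Y w = Y' w := by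
  obtain ⟨g, hg⟩ := two hU hc h h' hs hs'
  have h2 : Y p * g = Y p := by rw [← hg p hp, hpe]
  have h3 : g = 1 := by
    have h5 : (Y p)⁻¹ * (Y p * g) = (Y p)⁻¹ * Y p := by rw [h2]
    rwa [← Matrix.mul_assoc, Matrix.nonsing_inv_mul _ (h.det p (hs hp)), Matrix.one_mul] at h5
  intro w hw
  rw [hg w hw, h3, Matrix.mul_one]

/-- locally constant predicates on preconnected sets -/
theorem loc {S : Set ℂ} (hS : IsPreconnected S) (Q : ℂ → Prop)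
    (h : ∀ x ∈ S, ∃ V : Set ℂ, IsOpen V ∧ x ∈ V ∧ ∀ y ∈ V, y ∈ S → (Q x ↔ Q y)) {x y : ℂ}
    (hx : x ∈ S) (hy : y ∈ S) : Q x ↔ Q y := by
  refine hS.induction₂ (fun x y => (Q x ↔ Q y)) ?_ ?_ ?_ hx hy
  · intro x hx
    obtain ⟨V, hV, hxV, h1⟩ := h x hx
    filter_upwards [nhdsWithin_le_nhds (hV.mem_nhds hxV), self_mem_nhdsWithin] with y hy hyS
    exact h1 y hy hyS
  · intro x y z _ _ _ h1 h2
    exact h1.trans h2
  · intro x y _ _ h1
    exact h1.symm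

/-- `Y` is a solution near `p` -/
def LS (q : ℤ[X]) (B : Matrix d d ℤ[X]) (p : ℂ) (Y : ℂ → Matrix d d ℂ) : Prop :=
  ∃ δ : ℝ, SolOn q B p δ Y

theorem ls_of {c : ℂ} {ρ : ℝ} {Y : ℂ → Matrix d d ℂ} (h : SolOn q B c ρ Y) {p : ℂ}
    (hp : p ∈ Metric.ball c ρ) : LS q B p Y := by
  obtain ⟨δ, hδ, hb⟩ := Metric.isOpen_iff.1 Metric.isOpen_ball p hp
  exact ⟨δ, MT100G.H11.solOn_mono h hδ hb⟩

/-- continuation in the right half plane from `x0` to the germ of `Y` at `p` -/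
def RA (q : ℤ[X]) (B : Matrix d d ℤ[X]) (m : ℝ) (x0 : ℂ × ℝ × (ℂ → Matrix d d ℂ)) (p : ℂ)
    (Y : ℂ → Matrix d d ℂ) : Prop :=
  ∃ e0 : ℝ, 0 < e0 ∧ ∀ e : ℝ, 0 < e → e ≤ e0 → Cnt q B {w | m < w.re} x0 (p, e, Y)

/-- the disc in the left half plane -/
def DT (m T : ℝ) : Set ℂ := Metric.ball ((m + 2 - T : ℝ) : ℂ) T

/-- the germ of `Y` at `p` extends to the left half plane, and there it is reached from `x0` -/
def RB (q : ℤ[X]) (B : Matrix d d ℤ[X]) (m : ℝ) (x0 : ℂ × ℝ × (ℂ → Matrix d d ℂ)) (p : ℂ)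
    (Y : ℂ → Matrix d d ℂ) : Prop :=
  ∀ᶠ T : ℝ in Filter.atTop, ∃ Yh : ℂ → Matrix d d ℂ, SolOn q B ((m + 2 - T : ℝ) : ℂ) T Yh ∧
    (∀ᶠ w in 𝓝 p, Yh w = Y w) ∧ ∀ p' ∈ DT m T, m < p'.re → RA q B m x0 p' Yh

variable {m : ℝ} {x0 : ℂ × ℝ × (ℂ → Matrix d d ℂ)}

theorem isOpen_A (m : ℝ) : IsOpen {w : ℂ | m < w.re} := isOpen_lt continuous_const Complex.continuous_re

theorem isOpen_B (m : ℝ) : IsOpen {w : ℂ | w.re < m + 2} :=
  isOpen_lt Complex.continuous_re continuous_const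

theorem convex_A (m : ℝ) : Convex ℝ {w : ℂ | m < w.re} := convex_halfSpace_re_gt m

theorem convex_B (m : ℝ) : Convex ℝ {w : ℂ | w.re < m + 2} := convex_halfSpace_re_lt (m + 2)

theorem ra_germ {p : ℂ} {Y Y' : ℂ → Matrix d d ℂ} (hp : m < p.re) (h : LS q B p Y)
    (h' : LS q B p Y') (he : ∀ᶠ w in 𝓝 p, Y w = Y' w) (hr : RA q B m x0 p Y) :
    RA q B m x0 p Y' := by
  obtain ⟨δ, hδ⟩ := h
  obtain ⟨δ', hδ'⟩ := h'
  obtain ⟨e1, he1, h1⟩ := Metric.eventually_nhds_iff_ball.1 he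
  obtain ⟨e2, he2, h2⟩ := Metric.isOpen_iff.1 (isOpen_A m) p hp
  obtain ⟨e0, he0, h0⟩ := hr
  refine ⟨min (min δ δ') (min (min e1 e2) e0),
    lt_min (lt_min hδ.pos hδ'.pos) (lt_min (lt_min he1 he2) he0), fun e hepos hle => ?_⟩
  have l1 : e ≤ δ := hle.trans ((min_le_left _ _).trans (min_le_left _ _))
  have l2 : e ≤ δ' := hle.trans ((min_le_left _ _).trans (min_le_right _ _))
  have l3 : e ≤ e1 := hle.trans ((min_le_right _ _).trans ((min_le_left _ _).trans (min_le_left _ _)))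
  have l4 : e ≤ e2 := hle.trans ((min_le_right _ _).trans ((min_le_left _ _).trans (min_le_right _ _)))
  have l5 : e ≤ e0 := hle.trans ((min_le_right _ _).trans (min_le_right _ _))
  have hA : Metric.ball p e ⊆ {w | m < w.re} := (Metric.ball_subset_ball l4).trans h2
  exact (h0 e hepos l5).tail
    ⟨MT100G.H11.solOn_mono hδ hepos (Metric.ball_subset_ball l1),
      MT100G.H11.solOn_mono hδ' hepos (Metric.ball_subset_ball l2), hA, hA,
      ⟨p, Metric.mem_ball_self hepos, Metric.mem_ball_self hepos⟩,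
      fun w hw => h1 w (Metric.ball_subset_ball l3 hw.1)⟩

theorem ra_ball {c : ℂ} {ρ : ℝ} {Y : ℂ → Matrix d d ℂ} (h : SolOn q B c ρ Y)
    (hU : Metric.ball c ρ ⊆ {w | m < w.re}) {a b : ℂ} (ha : a ∈ Metric.ball c ρ)
    (hb : b ∈ Metric.ball c ρ) (hr : RA q B m x0 a Y) : RA q B m x0 b Y := by
  obtain ⟨e1, he1, h1⟩ := MT100G.H11.disc h hU Set.finite_empty
    (a := a) (b := b) (by rwa [Set.sdiff_empty]) (by rwa [Set.sdiff_empty])
  rw [Set.sdiff_empty] at h1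
  obtain ⟨e0, he0, h0⟩ := hr
  refine ⟨e1, he1, fun e hepos hle => ?_⟩
  exact (h0 (min e0 e1) (lt_min he0 he1) (min_le_left _ _)).trans
    (h1 (min e0 e1) e (lt_min he0 he1) (min_le_right _ _) hepos hle)

theorem ra_conv {U : Set ℂ} (hU : IsOpen U) (hc : Convex ℝ U) {c : ℂ} {ρ : ℝ}
    {Y : ℂ → Matrix d d ℂ} (h : SolOn q B c ρ Y) (hs : U ⊆ Metric.ball c ρ)
    (hm : U ⊆ {w | m < w.re}) {a b : ℂ} (ha : a ∈ U) (hb : b ∈ U) :
    RA q B m x0 a Y ↔ RA q B m x0 b Y := by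
  refine loc hc.isPreconnected (fun p => RA q B m x0 p Y) ?_ ha hb
  intro x hx
  obtain ⟨δ, hδ, hball⟩ := Metric.isOpen_iff.1 hU x hx
  have h1 : SolOn q B x δ Y := MT100G.H11.solOn_mono h hδ (hball.trans hs)
  exact ⟨Metric.ball x δ, Metric.isOpen_ball, Metric.mem_ball_self hδ, fun y hy _ =>
    ⟨ra_ball h1 (hball.trans hm) (Metric.mem_ball_self hδ) hy,
      ra_ball h1 (hball.trans hm) hy (Metric.mem_ball_self hδ)⟩⟩

theorem dt_sub {m T : ℝ} : DT m T ⊆ {w : ℂ | w.re < m + 2} := by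
  intro w hw
  have h1 : ‖w - ((m + 2 - T : ℝ) : ℂ)‖ < T := by rwa [DT, mem_ball_iff_norm] at hw
  have h2 : |(w - ((m + 2 - T : ℝ) : ℂ)).re| ≤ ‖w - ((m + 2 - T : ℝ) : ℂ)‖ :=
    Complex.abs_re_le_norm _
  rw [Complex.sub_re, Complex.ofReal_re] at h2
  have h3 := (abs_lt.mp (h2.trans_lt h1)).2
  show w.re < m + 2
  linarith

theorem mem_dt {m : ℝ} {w : ℂ} (hw : w.re < m + 2) : ∀ᶠ T : ℝ in Filter.atTop, w ∈ DT m T := by
  set a : ℝ := m + 2 - w.re with ha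
  have ha0 : 0 < a := by linarith
  filter_upwards [Filter.eventually_gt_atTop 0,
    Filter.eventually_gt_atTop ((a ^ 2 + w.im ^ 2) / (2 * a))] with T hT hT2
  rw [div_lt_iff₀ (by positivity)] at hT2
  rw [DT, mem_ball_iff_norm]
  apply lt_of_pow_lt_pow_left₀ 2 hT.le
  rw [← Complex.normSq_eq_norm_sq, Complex.normSq_apply, Complex.sub_re, Complex.sub_im,
    Complex.ofReal_re, Complex.ofReal_im]
  have e : w.re - (m + 2 - T) = T - a := by rw [ha]; ring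
  rw [e]
  nlinarith

theorem ra_of_rb {p : ℂ} {Y : ℂ → Matrix d d ℂ} (hp : m < p.re) (hp' : p.re < m + 2)
    (h : LS q B p Y) (hr : RB q B m x0 p Y) : RA q B m x0 p Y := by
  obtain ⟨T, ⟨Yh, h1, h2, h3⟩, hT⟩ := (Filter.Eventually.and hr (mem_dt hp')).exists
  exact ra_germ hp (ls_of h1 hT) h h2 (h3 p hT hp)

theorem rb_of_ra (hreg : ∀ w : ℂ, w.re < m + 2 → w ≠ 0 ∧ zC q w⁻¹ ≠ 0) {p : ℂ}
    {Y : ℂ → Matrix d d ℂ} (hp : m < p.re) (hp' : p.re < m + 2)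
    (h : LS q B p Y) (hr : RA q B m x0 p Y) : RB q B m x0 p Y := by
  have hls := h
  obtain ⟨δ, hδ⟩ := h
  unfold RB
  filter_upwards [mem_dt hp', Filter.eventually_gt_atTop 0] with T hT hT0
  have hdiff : ∀ i j, DifferentiableOn ℂ (fun w => Am q B w i j)
      (Metric.ball ((m + 2 - T : ℝ) : ℂ) T) := by
    intro i j w hw
    obtain ⟨hw0, hw1⟩ := hreg w (dt_sub hw)
    have hz : ∀ r : ℤ[X], DifferentiableAt ℂ (fun w => zC r w⁻¹) w := fun r =>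
      ((r.map (Int.castRingHom ℂ)).differentiable.differentiableAt).comp w
        (differentiableAt_inv hw0)
    have h1 : (fun w => Am q B w i j) = fun w => -((w * zC q w⁻¹)⁻¹) * zC (B i j) w⁻¹ := by
      funext w
      unfold Am
      rw [Matrix.smul_apply, smul_eq_mul, Matrix.map_apply]
    rw [h1]
    exact (((differentiableAt_id.mul (hz q)).inv (mul_ne_zero hw0 hw1)).neg.mul
      (hz (B i j))).differentiableWithinAt
  obtain ⟨Y0, -, hY0⟩ := MT100G.H67.ode d (Am q B) ((m + 2 - T : ℝ) : ℂ) T hT0 hdiff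
  have hS0 : SolOn q B ((m + 2 - T : ℝ) : ℂ) T Y0 :=
    ⟨hT0, fun w hw => hreg w (dt_sub hw), fun w hw => (hY0 w hw).1,
      fun w hw i j => (ode_iff Y0 w i j).2 ((hY0 w hw).2 i j)⟩
  have hUo : IsOpen (Metric.ball p δ ∩ DT m T) := Metric.isOpen_ball.inter Metric.isOpen_ball
  have hUc : Convex ℝ (Metric.ball p δ ∩ DT m T) := (convex_ball _ _).inter (convex_ball _ _)
  have hpU : p ∈ Metric.ball p δ ∩ DT m T := ⟨Metric.mem_ball_self hδ.pos, hT⟩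
  obtain ⟨g, hg⟩ := two hUo hUc hS0 hδ Set.inter_subset_right Set.inter_subset_left
  have hgu : IsUnit g.det := by
    have h1 := hδ.det p (Metric.mem_ball_self hδ.pos)
    rw [hg p hpU, Matrix.det_mul] at h1
    exact isUnit_of_mul_isUnit_right h1
  have hS : SolOn q B ((m + 2 - T : ℝ) : ℂ) T (fun w => Y0 w * g) :=
    MT100G.H19.SolOn.mulg hS0 hgu
  have hnear : ∀ᶠ w in 𝓝 p, Y0 w * g = Y w := by
    filter_upwards [hUo.mem_nhds hpU] with w hw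
    exact (hg w hw).symm
  refine ⟨fun w => Y0 w * g, hS, hnear, fun p' hp1 hp2 => ?_⟩
  have h1 : RA q B m x0 p (fun w => Y0 w * g) :=
    ra_germ hp hls (ls_of hS hT) (hnear.mono fun w hw => hw.symm) hr
  have hVo : IsOpen (DT m T ∩ {w | m < w.re}) := Metric.isOpen_ball.inter (isOpen_A m)
  have hVc : Convex ℝ (DT m T ∩ {w | m < w.re}) := (convex_ball _ _).inter (convex_A m)
  exact (ra_conv hVo hVc hS Set.inter_subset_left Set.inter_subset_right ⟨hT, hp⟩ ⟨hp1, hp2⟩).1 h1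

theorem rb_conv {U : Set ℂ} (hU : IsOpen U) (hc : Convex ℝ U) {c : ℂ} {ρ : ℝ}
    {Y : ℂ → Matrix d d ℂ} (h : SolOn q B c ρ Y) (hs : U ⊆ Metric.ball c ρ)
    (hm : U ⊆ {w | w.re < m + 2}) {a b : ℂ} (ha : a ∈ U) (hb : b ∈ U)
    (hr : RB q B m x0 a Y) : RB q B m x0 b Y := by
  unfold RB at hr ⊢
  filter_upwards [hr, mem_dt (hm ha), mem_dt (hm hb)] with T ⟨Yh, h1, h2, h3⟩ hTa hTb
  refine ⟨Yh, h1, ?_, h3⟩
  have hVo : IsOpen (U ∩ DT m T) := hU.inter Metric.isOpen_ball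
  have hVc : Convex ℝ (U ∩ DT m T) := hc.inter (convex_ball _ _)
  have h4 := uniq hVo hVc h1 h Set.inter_subset_right (Set.inter_subset_left.trans hs)
    ⟨ha, hTa⟩ h2.self_of_nhds
  filter_upwards [hVo.mem_nhds ⟨hb, hTb⟩] with w hw
  exact h4 w hw

/-- the germ of `Y` at `p` is reached from `x0` -/
def QQ (q : ℤ[X]) (B : Matrix d d ℤ[X]) (m : ℝ) (x0 : ℂ × ℝ × (ℂ → Matrix d d ℂ)) (p : ℂ)
    (Y : ℂ → Matrix d d ℂ) : Prop :=
  (m < p.re ∧ RA q B m x0 p Y) ∨ (p.re < m + 2 ∧ RB q B m x0 p Y)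

theorem qq_ra {p : ℂ} {Y : ℂ → Matrix d d ℂ} (hp : m < p.re) (h : LS q B p Y) :
    QQ q B m x0 p Y ↔ RA q B m x0 p Y := by
  constructor
  · rintro (h1 | h1)
    · exact h1.2
    · exact ra_of_rb hp h1.1 h h1.2
  · exact fun h1 => Or.inl ⟨hp, h1⟩

theorem qq_rb (hreg : ∀ w : ℂ, w.re < m + 2 → w ≠ 0 ∧ zC q w⁻¹ ≠ 0) {p : ℂ}
    {Y : ℂ → Matrix d d ℂ} (hp : p.re < m + 2) (h : LS q B p Y) :
    QQ q B m x0 p Y ↔ RB q B m x0 p Y := by
  constructor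
  · rintro (h1 | h1)
    · exact rb_of_ra hreg h1.1 hp h h1.2
    · exact h1.2
  · exact fun h1 => Or.inr ⟨hp, h1⟩

theorem qq_germ {p : ℂ} {Y Y' : ℂ → Matrix d d ℂ} (h : LS q B p Y)
    (h' : LS q B p Y') (he : ∀ᶠ w in 𝓝 p, Y w = Y' w) (hr : QQ q B m x0 p Y) :
    QQ q B m x0 p Y' := by
  rcases hr with h1 | h1
  · exact Or.inl ⟨h1.1, ra_germ h1.1 h h' he h1.2⟩
  · refine Or.inr ⟨h1.1, ?_⟩
    have h2 := h1.2
    unfold RB at h2 ⊢
    filter_upwards [h2] with T ⟨Yh, h3, h4, h5⟩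
    refine ⟨Yh, h3, ?_, h5⟩
    filter_upwards [h4, he] with w e1 e2
    rw [e1, e2]

theorem qq_move (hreg : ∀ w : ℂ, w.re < m + 2 → w ≠ 0 ∧ zC q w⁻¹ ≠ 0) {c : ℂ} {ρ : ℝ}
    {Y : ℂ → Matrix d d ℂ} (h : SolOn q B c ρ Y) {a b : ℂ} (ha : a ∈ Metric.ball c ρ)
    (hb : b ∈ Metric.ball c ρ) : QQ q B m x0 a Y ↔ QQ q B m x0 b Y := by
  refine loc (convex_ball c ρ).isPreconnected (fun p => QQ q B m x0 p Y) ?_ ha hb
  intro x hx
  rcases lt_or_ge m x.re with hmx | hmx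
  · refine ⟨Metric.ball c ρ ∩ {w | m < w.re}, Metric.isOpen_ball.inter (isOpen_A m), ⟨hx, hmx⟩,
      fun y hy _ => ?_⟩
    rw [qq_ra hmx (ls_of h hx), qq_ra hy.2 (ls_of h hy.1)]
    exact ra_conv (Metric.isOpen_ball.inter (isOpen_A m)) ((convex_ball c ρ).inter (convex_A m)) h
      Set.inter_subset_left Set.inter_subset_right ⟨hx, hmx⟩ hy
  · have hx2 : x.re < m + 2 := by linarith
    refine ⟨Metric.ball c ρ ∩ {w | w.re < m + 2}, Metric.isOpen_ball.inter (isOpen_B m),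
      ⟨hx, hx2⟩, fun y hy _ => ?_⟩
    rw [qq_rb hreg hx2 (ls_of h hx), qq_rb hreg hy.2 (ls_of h hy.1)]
    exact ⟨rb_conv (Metric.isOpen_ball.inter (isOpen_B m)) ((convex_ball c ρ).inter (convex_B m)) h
      Set.inter_subset_left Set.inter_subset_right ⟨hx, hx2⟩ hy,
      rb_conv (Metric.isOpen_ball.inter (isOpen_B m)) ((convex_ball c ρ).inter (convex_B m)) h
      Set.inter_subset_left Set.inter_subset_right hy ⟨hx, hx2⟩⟩

/-- retraction of a chain to the half plane -/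
theorem retract (hreg : ∀ w : ℂ, w.re < m + 2 → w ≠ 0 ∧ zC q w⁻¹ ≠ 0)
    (h0 : SolOn q B x0.1 x0.2.1 x0.2.2) (hU : Metric.ball x0.1 x0.2.1 ⊆ {w | m < w.re})
    {y : ℂ × ℝ × (ℂ → Matrix d d ℂ)} (hc : Cnt q B Set.univ x0 y) :
    SolOn q B y.1 y.2.1 y.2.2 ∧ ∀ p ∈ Metric.ball y.1 y.2.1, QQ q B m x0 p y.2.2 := by
  induction hc with
  | refl =>
    refine ⟨h0, fun p hp => ?_⟩
    have hc0 : x0.1 ∈ Metric.ball x0.1 x0.2.1 := Metric.mem_ball_self h0.pos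
    refine (qq_move hreg h0 hc0 hp).1 (Or.inl ⟨hU hc0, x0.2.1, h0.pos, fun e he hle => ?_⟩)
    have hb : Metric.ball x0.1 e ⊆ Metric.ball x0.1 x0.2.1 := Metric.ball_subset_ball hle
    exact Relation.ReflTransGen.single ⟨h0, MT100G.H11.solOn_mono h0 he hb, hU, hb.trans hU,
      ⟨x0.1, hc0, Metric.mem_ball_self he⟩, fun _ _ => rfl⟩
  | @tail y z _ hyz ih =>
    obtain ⟨hy, hQ⟩ := ih
    obtain ⟨-, h2, -, -, ⟨p0, hp0⟩, h6⟩ := hyz
    refine ⟨h2, fun p hp => (qq_move hreg h2 hp0.2 hp).1 ?_⟩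
    refine qq_germ (ls_of hy hp0.1) (ls_of h2 hp0.2) ?_ (hQ p0 hp0.1)
    filter_upwards [(Metric.isOpen_ball.inter Metric.isOpen_ball).mem_nhds hp0] with w hw
    exact h6 w hw

theorem sing_finite (hq : q ≠ 0) : ({w : ℂ | w = 0 ∨ zC q w⁻¹ = 0}).Finite := by
  have h1 : q.map (Int.castRingHom ℂ) ≠ 0 := by
    intro h
    apply hq
    exact (Polynomial.map_eq_zero_iff (RingHom.injective_int (Int.castRingHom ℂ))).1 h
  have h2 : ({x : ℂ | zC q x = 0}).Finite := by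
    have h3 := (q.map (Int.castRingHom ℂ)).roots.toFinset.finite_toSet
    refine h3.subset fun x hx => ?_
    rw [Finset.mem_coe, Multiset.mem_toFinset, Polynomial.mem_roots h1]
    exact hx
  have h3 : ({w : ℂ | zC q w⁻¹ = 0}).Finite := h2.preimage inv_injective.injOn
  exact (Set.finite_singleton (0 : ℂ)).union h3

/-- Module HMN. -/
theorem hmn : HmnStmt := by
  intro d _ _ F
  obtain ⟨R, -, hsol, -⟩ := MT100G.H43.bas d F.H F.K F.N F.q F.B F.sys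
  have hfin := sing_finite F.sys.q0
  obtain ⟨b, hb⟩ : BddBelow (Complex.re '' {w : ℂ | w = 0 ∨ zC F.q w⁻¹ = 0}) :=
    (hfin.image _).bddBelow
  refine ⟨min b R - 3, fun g hg => ?_⟩
  obtain ⟨m, hm⟩ : ∃ m : ℝ, m = min b R - 3 := ⟨_, rfl⟩
  rw [← hm]
  have hmb : m + 3 ≤ b := by rw [hm]; linarith [min_le_left b R]
  have hmR : m + 3 ≤ R := by rw [hm]; linarith [min_le_right b R]
  have hreg : ∀ w : ℂ, w.re < m + 2 → w ≠ 0 ∧ zC F.q w⁻¹ ≠ 0 := by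
    intro w hw
    by_contra hcon
    have h1 : w ∈ {w : ℂ | w = 0 ∨ zC F.q w⁻¹ = 0} := by
      show w = 0 ∨ zC F.q w⁻¹ = 0
      by_contra h2
      push Not at h2
      exact hcon h2
    have h3 := hb (Set.mem_image_of_mem Complex.re h1)
    linarith
  have hg' : ∀ᶠ c : ℝ in Filter.atTop, Cnt F.q F.B Set.univ ((c : ℂ), 1, YH F.H F.N)
    ((c : ℂ), 1, fun w => YH F.H F.N w * g) := hg
  show ∀ᶠ c : ℝ in Filter.atTop, Cnt F.q F.B {w | m < w.re} ((c : ℂ), 1, YH F.H F.N)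
    ((c : ℂ), 1, fun w => YH F.H F.N w * g)
  filter_upwards [hg', Filter.eventually_gt_atTop (R + 1)] with c h1 h2
  have hbR : Metric.ball (c : ℂ) 1 ⊆ {w : ℂ | R < w.re} := MT100G.H19.ball_half h2
  have hbm : Metric.ball (c : ℂ) 1 ⊆ {w : ℂ | m < w.re} := by
    intro w hw
    have h3 : R < w.re := hbR hw
    show m < w.re
    linarith
  have hS : SolOn F.q F.B (c : ℂ) 1 (YH F.H F.N) := hsol c 1 one_pos hbR
  obtain ⟨h3, h4⟩ := retract (x0 := ((c : ℂ), 1, YH F.H F.N)) hreg hS hbm h1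
  have hcc : (c : ℂ) ∈ Metric.ball (c : ℂ) 1 := Metric.mem_ball_self one_pos
  have h5 := (qq_ra (hbm hcc) (ls_of h3 hcc)).1 (h4 (c : ℂ) hcc)
  obtain ⟨e0, he0, h6⟩ := h5
  have h7 := h6 (min e0 1) (lt_min he0 one_pos) (min_le_left _ _)
  have hb1 : Metric.ball (c : ℂ) (min e0 1) ⊆ Metric.ball (c : ℂ) 1 :=
    Metric.ball_subset_ball (min_le_right _ _)
  exact h7.tail ⟨MT100G.H11.solOn_mono h3 (lt_min he0 one_pos) hb1, h3, hb1.trans hbm, hbm,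
    ⟨(c : ℂ), Metric.mem_ball_self (lt_min he0 one_pos), hcc⟩, fun _ _ => rfl⟩

end Pool.Agent.MT100A.H81
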