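import Pool.Agent.MT100A.StmtsL

/-! NEA: small elements of a compact group are neat. -/

set_option autoImplicit false

namespace Pool.Agent.MT100A.H81

open Matrix Polynomial

section tf

variable {K : Type*} [Field K] (A : ValuationSubring K) (p : ℕ)

/-- units congruent to `1` modulo `p ^ 2` -/
def oneUnits (hp : ¬ IsUnit (p : A)) : Subgroup Kˣ where
  carrier := {u | ∃ a : A, (u : K) = 1 + (p : K) ^ 2 * a}
  one_mem' := ⟨0, by simp⟩
  mul_mem' := by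
    rintro u v ⟨a, ha⟩ ⟨b, hb⟩
    refine ⟨a + b + (p : A) ^ 2 * a * b, ?_⟩
    rw [Units.val_mul, ha, hb]
    push_cast
    ring
  inv_mem' := by
    rintro u ⟨a, ha⟩
    have h1 : IsUnit (1 + (p : A) ^ 2 * a) := by
      have h2 : -((p : A) ^ 2 * a) ∈ IsLocalRing.maximalIdeal A := by
        rw [neg_mem_iff]
        exact Ideal.mul_mem_right _ _ (Ideal.pow_mem_of_mem _ ((IsLocalRing.mem_maximalIdeal _).2 hp) 2
          (by norm_num))
      have h3 := IsLocalRing.isUnit_one_sub_self_of_mem_nonunits _ ((IsLocalRing.mem_maximalIdeal _).1 h2)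
      rwa [sub_neg_eq_add] at h3
    obtain ⟨v, hv⟩ := h1.exists_right_inv
    refine ⟨-(a * v), ?_⟩
    have h4 : (u : K) * (v : K) = 1 := by
      rw [ha]
      have := congrArg (fun x : A => (x : K)) hv
      push_cast at this
      exact this
    have h5 : ((u⁻¹ : Kˣ) : K) = v := by
      rw [Units.val_inv_eq_inv_val]
      exact inv_eq_of_mul_eq_one_right h4
    rw [h5]
    rw [ha] at h4
    push_cast
    linear_combination h4

theorem tf_prime (hp : p.Prime) (hu : ¬ IsUnit (p : A)) (h0 : (p : K) ≠ 0) (u : Kˣ)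
    (hmem : u ∈ oneUnits A p hu) (q : ℕ) (hq : q.Prime) (h1 : u ^ q = 1) : u = 1 := by
  by_contra hne
  obtain ⟨a, ha⟩ := hmem
  have hm : (p : A) ∈ IsLocalRing.maximalIdeal A := (IsLocalRing.mem_maximalIdeal _).2 hu
  set w : A := 1 + (p : A) ^ 2 * a with hw
  have hwu : (w : K) = u := by rw [ha, hw]; push_cast; rfl
  have hsum : (∑ i ∈ Finset.range q, (u : K) ^ i) = 0 := by
    have h2 := geom_sum_mul (u : K) q
    have h3 : (u : K) ^ q = 1 := by rw [← Units.val_pow_eq_pow_val, h1, Units.val_one]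
    rw [h3, sub_self] at h2
    rcases mul_eq_zero.1 h2 with h | h
    · exact h
    · exact absurd (Units.ext (by rw [Units.val_one]; exact sub_eq_zero.1 h)) hne
  have hsumA : (∑ i ∈ Finset.range q, w ^ i) = 0 := by
    apply Subtype.ext
    have : (((∑ i ∈ Finset.range q, w ^ i : A)) : K) = ∑ i ∈ Finset.range q, (w : K) ^ i := by
      push_cast
      rfl
    rw [this, hwu, hsum]
    rfl
  have hdvd : (p : A) ^ 2 ∣ (∑ i ∈ Finset.range q, w ^ i) - (q : A) := by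
    have : (∑ i ∈ Finset.range q, w ^ i) - (q : A) = ∑ i ∈ Finset.range q, (w ^ i - 1) := by
      rw [Finset.sum_sub_distrib]
      simp
    rw [this]
    refine Finset.dvd_sum fun i _ => ?_
    have h5 := sub_dvd_pow_sub_pow w 1 i
    rw [one_pow] at h5
    refine dvd_trans ?_ h5
    rw [hw, add_sub_cancel_left]
    exact dvd_mul_right _ _
  rw [hsumA, zero_sub] at hdvd
  obtain ⟨c, hc⟩ := hdvd
  by_cases hpq : q = p
  · subst hpq
    have h6 : (q : A) * (1 + (q : A) * c) = 0 := by linear_combination -hc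
    have hq0 : (q : A) ≠ 0 := by
      intro h
      apply h0
      have := congrArg (fun x : A => (x : K)) h
      push_cast at this
      exact this
    have h7 : (1 + (q : A) * c) = 0 := (mul_eq_zero.1 h6).resolve_left hq0
    have h8 : (1 : A) ∈ IsLocalRing.maximalIdeal A := by
      have : (1 : A) = -((q : A) * c) := by linear_combination h7
      rw [this, neg_mem_iff]
      exact Ideal.mul_mem_right _ _ hm
    exact (IsLocalRing.mem_maximalIdeal _).1 h8 isUnit_one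
  · have hco : IsCoprime (q : ℤ) (p : ℤ) :=
      Nat.isCoprime_iff_coprime.2 ((Nat.coprime_primes hq hp).2 hpq)
    obtain ⟨x, y, hxy⟩ := hco
    have h9 : (x : A) * (q : A) + (y : A) * (p : A) = 1 := by
      have := congrArg (fun n : ℤ => (n : A)) hxy
      push_cast at this
      exact this
    have h8 : (1 : A) ∈ IsLocalRing.maximalIdeal A := by
      have h10 : (1 : A) = (p : A) * (-(x : A) * (p : A) * c + y) := by
        linear_combination -h9 + (x : A) * (-hc)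
      rw [h10]
      exact Ideal.mul_mem_right _ _ hm
    exact (IsLocalRing.mem_maximalIdeal _).1 h8 isUnit_one

theorem tf_all (hp : p.Prime) (hu : ¬ IsUnit (p : A)) (h0 : (p : K) ≠ 0) :
    ∀ m : ℕ, 0 < m → ∀ u ∈ oneUnits A p hu, u ^ m = 1 → u = 1 := by
  intro m
  induction m using Nat.strong_induction_on with
  | _ m ih =>
    intro hm u hmem h1
    by_cases hm1 : m = 1
    · rwa [hm1, pow_one] at h1
    · obtain ⟨q, hq, k, hk⟩ := Nat.exists_prime_and_dvd hm1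
      have hk0 : 0 < k := by
        rcases Nat.eq_zero_or_pos k with h | h
        · rw [h, mul_zero] at hk; omega
        · exact h
      have hkm : k < m := by
        rw [hk]
        nlinarith [hq.two_le]
      have h2 : (u ^ k) ^ q = 1 := by rw [← pow_mul, mul_comm, ← hk]; exact h1
      exact ih k hkm hk0 u hmem
        (tf_prime A p hp hu h0 _ (Subgroup.pow_mem _ hmem k) q hq h2)

end tf

section main

variable {d : Type} [Fintype d] [DecidableEq d] {ℓ : ℕ} [Fact ℓ.Prime]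

theorem neat_of (ι : ℚ_[ℓ] →+* ℂ) (g : Matrix d d ℚ_[ℓ]) (N : Matrix d d ℤ_[ℓ])
    (hN : g = 1 + ((ℓ : ℚ_[ℓ]) ^ 2) • N.map (algebraMap ℤ_[ℓ] ℚ_[ℓ])) : Neat (g.map ι) := by
  have hℓ : ℓ.Prime := Fact.out
  set f : ℤ_[ℓ] →+* ℂ := ι.comp (algebraMap ℤ_[ℓ] ℚ_[ℓ]) with hf
  obtain ⟨A, hA, hloc⟩ := IsLocalRing.exists_factor_valuationRing f
  set φ : ℤ_[ℓ] →+* A.toSubring := f.codRestrict A.toSubring hA with hφ
  have h0 : (ℓ : ℂ) ≠ 0 := Nat.cast_ne_zero.2 hℓ.ne_zero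
  have hnu : ¬ IsUnit (ℓ : A) := by
    intro h
    have h1 : IsUnit (φ (ℓ : ℤ_[ℓ])) := by
      have : φ (ℓ : ℤ_[ℓ]) = ((ℓ : A) : A.toSubring) := by
        rw [map_natCast]
      rw [this]
      exact h
    have h2 : IsUnit (ℓ : ℤ_[ℓ]) := (isUnit_map_iff φ _).1 h1
    exact PadicInt.prime_p.not_isUnit h2
  intro ζ hζ m hm hpow
  refine tf_all A ℓ hℓ hnu h0 m hm ζ ?_ hpow
  refine (Subgroup.closure_le _).2 ?_ hζ
  intro z hz
  have hz : ((g.map ι).charpoly).IsRoot (z : ℂ) := hz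
  set a : ℂ := ((z : ℂ) - 1) / (ℓ : ℂ) ^ 2 with ha
  have hza : (z : ℂ) = 1 + (ℓ : ℂ) ^ 2 * a := by
    rw [ha, mul_div_cancel₀ _ (pow_ne_zero 2 h0)]
    ring
  have hroot : ((N.map f).charpoly).IsRoot a := by
    rw [Polynomial.IsRoot, Matrix.eval_charpoly] at hz ⊢
    have h3 : (Matrix.scalar d (z : ℂ)) - g.map ι = ((ℓ : ℂ) ^ 2) • (Matrix.scalar d a - N.map f) := by
      rw [hN]
      ext i j
      rw [Matrix.smul_apply, Matrix.sub_apply, Matrix.sub_apply, Matrix.map_apply, Matrix.map_apply,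
        Matrix.scalar_apply, Matrix.scalar_apply, Matrix.add_apply, Matrix.smul_apply,
        Matrix.map_apply, hf, RingHom.comp_apply, smul_eq_mul, smul_eq_mul, map_add, map_mul,
        map_pow, map_natCast]
      by_cases hij : i = j
      · subst hij
        rw [Matrix.one_apply_eq, Matrix.diagonal_apply_eq, Matrix.diagonal_apply_eq, map_one, hza]
        ring
      · rw [Matrix.one_apply_ne hij, Matrix.diagonal_apply_ne _ hij, Matrix.diagonal_apply_ne _ hij,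
          map_zero]
        ring
    rw [h3, Matrix.det_smul] at hz
    exact (mul_eq_zero.1 hz).resolve_left (pow_ne_zero _ (pow_ne_zero 2 h0))
  have hint : IsIntegral A a := by
    refine ⟨(N.charpoly).map (φ : ℤ_[ℓ] →+* A), (Matrix.charpoly_monic N).map _, ?_⟩
    have h4 : (algebraMap A ℂ).comp (φ : ℤ_[ℓ] →+* A) = f := by
      ext x
      rfl
    rw [Polynomial.eval₂_map, h4]
    rw [Matrix.charpoly_map, Polynomial.IsRoot, Polynomial.eval_map] at hroot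
    exact hroot
  obtain ⟨y, hy⟩ := (IsIntegrallyClosed.isIntegral_iff (R := A) (K := ℂ)).1 hint
  exact ⟨y, by rw [hza, ← hy]; rfl⟩

/-- the matrices `1 + ℓ ^ 2 N`, `N` integral -/
def Sm (X : Matrix d d ℚ_[ℓ]) : Prop :=
  ∃ N : Matrix d d ℤ_[ℓ], X = 1 + ((ℓ : ℚ_[ℓ]) ^ 2) • N.map (algebraMap ℤ_[ℓ] ℚ_[ℓ])

omit [Fintype d] in
theorem sm_one : Sm (1 : Matrix d d ℚ_[ℓ]) := by
  refine ⟨0, ?_⟩
  ext i j
  simp [Matrix.add_apply, Matrix.smul_apply]

theorem sm_mul {X Y : Matrix d d ℚ_[ℓ]} (hX : Sm X) (hY : Sm Y) : Sm (X * Y) := by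
  obtain ⟨M, rfl⟩ := hX
  obtain ⟨N, rfl⟩ := hY
  refine ⟨M + N + ((ℓ : ℤ_[ℓ]) ^ 2) • (M * N), ?_⟩
  have h1 : (M + N + ((ℓ : ℤ_[ℓ]) ^ 2) • (M * N)).map (algebraMap ℤ_[ℓ] ℚ_[ℓ]) =
      M.map (algebraMap ℤ_[ℓ] ℚ_[ℓ]) + N.map (algebraMap ℤ_[ℓ] ℚ_[ℓ]) +
      ((ℓ : ℚ_[ℓ]) ^ 2) • (M.map (algebraMap ℤ_[ℓ] ℚ_[ℓ]) * N.map (algebraMap ℤ_[ℓ] ℚ_[ℓ])) := by
    rw [← Matrix.map_mul]
    ext i j
    simp only [Matrix.add_apply, Matrix.smul_apply, Matrix.map_apply, smul_eq_mul, map_add, map_mul,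
      map_pow, map_natCast]
  rw [h1]
  simp only [mul_add, add_mul, mul_one, one_mul, smul_add, Matrix.smul_mul, Matrix.mul_smul]
  abel

omit [Fintype d] in
theorem sm_iff (X : Matrix d d ℚ_[ℓ]) :
    Sm X ↔ ∀ i j, ‖(X - 1) i j‖ ≤ ((ℓ : ℝ) ^ 2)⁻¹ := by
  have hℓ : ℓ.Prime := Fact.out
  have h0 : (ℓ : ℚ_[ℓ]) ≠ 0 := Nat.cast_ne_zero.2 hℓ.ne_zero
  have hn : ‖(ℓ : ℚ_[ℓ]) ^ 2‖ = ((ℓ : ℝ) ^ 2)⁻¹ := by
    rw [norm_pow, Padic.norm_p, inv_pow]
  have hpos : (0 : ℝ) < ((ℓ : ℝ) ^ 2)⁻¹ := by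
    have : (0 : ℝ) < ℓ := Nat.cast_pos.2 hℓ.pos
    positivity
  constructor
  · rintro ⟨N, rfl⟩ i j
    rw [add_sub_cancel_left, Matrix.smul_apply, smul_eq_mul, norm_mul, hn]
    have h1 : ‖(N.map (algebraMap ℤ_[ℓ] ℚ_[ℓ])) i j‖ ≤ 1 := (N i j).2
    nlinarith
  · intro h
    have h5 : ∀ i j, ∃ y : ℤ_[ℓ], algebraMap ℤ_[ℓ] ℚ_[ℓ] y = ((X - 1) i j) / (ℓ : ℚ_[ℓ]) ^ 2 := by
      intro i j
      refine ⟨⟨((X - 1) i j) / (ℓ : ℚ_[ℓ]) ^ 2, ?_⟩, rfl⟩
      rw [norm_div, hn]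
      exact (div_le_one hpos).2 (h i j)
    choose y hy using h5
    refine ⟨Matrix.of y, ?_⟩
    ext i j
    have h2 : ((ℓ : ℚ_[ℓ]) ^ 2) * (((X - 1) i j) / (ℓ : ℚ_[ℓ]) ^ 2) = (X - 1) i j :=
      mul_div_cancel₀ _ (pow_ne_zero 2 h0)
    rw [Matrix.add_apply, Matrix.smul_apply, Matrix.map_apply, Matrix.of_apply, hy, smul_eq_mul, h2,
      Matrix.sub_apply]
    ring

theorem sm_open : IsOpen {X : Matrix d d ℚ_[ℓ] | Sm X} := by
  have hℓ : ℓ.Prime := Fact.out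
  have h1 : {X : Matrix d d ℚ_[ℓ] | Sm X} =
      ⋂ i, ⋂ j, {X : Matrix d d ℚ_[ℓ] | ‖(X - 1) i j‖ ≤ ((ℓ : ℝ) ^ 2)⁻¹} := by
    ext X
    simp only [Set.mem_iInter]
    exact sm_iff X
  rw [h1]
  refine isOpen_iInter_of_finite fun i => isOpen_iInter_of_finite fun j => ?_
  have h2 : {X : Matrix d d ℚ_[ℓ] | ‖(X - 1) i j‖ ≤ ((ℓ : ℝ) ^ 2)⁻¹} =
      (fun X : Matrix d d ℚ_[ℓ] => (X - 1) i j) ⁻¹' Metric.closedBall 0 (((ℓ : ℝ) ^ 2)⁻¹) := by
    ext X
    simp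
  rw [h2]
  refine IsOpen.preimage ?_ (IsUltrametricDist.isOpen_closedBall _ ?_)
  · exact (continuous_id.sub continuous_const).matrix_elem i j
  · have : (0 : ℝ) < ℓ := Nat.cast_pos.2 hℓ.pos
    positivity

/-- the congruence subgroup -/
def cong (d : Type) [Fintype d] [DecidableEq d] (ℓ : ℕ) [Fact ℓ.Prime] : Subgroup (GL d ℚ_[ℓ]) where
  carrier := {g | Sm (g : Matrix d d ℚ_[ℓ]) ∧ Sm ((g⁻¹ : GL d ℚ_[ℓ]) : Matrix d d ℚ_[ℓ])}
  one_mem' := ⟨sm_one, by rw [inv_one]; exact sm_one⟩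
  mul_mem' := by
    rintro g h ⟨hg, hg'⟩ ⟨hh, hh'⟩
    refine ⟨?_, ?_⟩
    · rw [Units.val_mul]
      exact sm_mul hg hh
    · rw [_root_.mul_inv_rev, Units.val_mul]
      exact sm_mul hh' hg'
  inv_mem' := by
    rintro g ⟨hg, hg'⟩
    exact ⟨hg', by rw [inv_inv]; exact hg⟩

theorem cong_open : IsOpen (cong d ℓ : Set (GL d ℚ_[ℓ])) := by
  have h1 : (cong d ℓ : Set (GL d ℚ_[ℓ])) =
      {g : GL d ℚ_[ℓ] | Sm (g : Matrix d d ℚ_[ℓ])} ∩
        {g : GL d ℚ_[ℓ] | Sm ((g⁻¹ : GL d ℚ_[ℓ]) : Matrix d d ℚ_[ℓ])} := rfl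
  rw [h1]
  refine IsOpen.inter (sm_open.preimage Units.continuous_val) ?_
  exact sm_open.preimage (Units.continuous_val.comp continuous_inv)

end main

theorem nea : NeaStmt := by
  intro d _ _ ℓ _ Γ _ _ _ _ ρ hρ
  refine ⟨(cong d ℓ).comap ρ, ?_, ?_⟩
  · have h1 : IsOpen (((cong d ℓ).comap ρ : Subgroup Γ) : Set Γ) := cong_open.preimage hρ
    have := Subgroup.quotient_finite_of_isOpen _ h1
    exact Subgroup.finiteIndex_of_finite_quotient
  · rintro γ ⟨⟨N, hN⟩, -⟩ ι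
    exact neat_of ι _ N hN

end Pool.Agent.MT100A.H81
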